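import Pool.Agent.Lib.MP_13bed0_nt.Main

/-!
# For all large `N` the truncation `Ξ_N` does not have monotonic zeros in the first quadrant
-/

set_option autoImplicit false

namespace Pool.Agent.Results.MP_13bed0_nt.EventuallyNotMonotonic

open Pool.Agent.Lib.MP_13bed0_nt

/-- For every sufficiently large `N` the function `Ξ_N` has two zeros `α`, `β` in the closed
first quadrant with `Re α < Re β` and `Im α > Im β`; so `Ξ_N` does not have monotonic zeros. -/
theorem result : ∃ N₀ : ℕ, ∀ N : ℕ, N₀ ≤ N → ∃ α ∈ Quadrant, ∃ β ∈ Quadrant,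
    XiTrunc N α = 0 ∧ XiTrunc N β = 0 ∧ α.re < β.re ∧ β.im < α.im := by
  obtain ⟨N₀, h⟩ := Filter.eventually_atTop.1 main_theorem
  refine ⟨N₀, fun N hN => ?_⟩
  obtain ⟨α, β, hα, hβ, h1, h2, h3, h4⟩ := h N hN
  exact ⟨α, hα, β, hβ, h1, h2, h3, h4⟩

end Pool.Agent.Results.MP_13bed0_nt.EventuallyNotMonotonic
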